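import Mathlib
import Pool.Agent.Q285.PermEnum

set_option autoImplicit false

/-! For the pattern 23451 and n = 7 the sequence of expectations is not unimodal. -/

namespace Pool.Agent.Results.MP_094caa_co.NotUnimodal

/-- the number of inversions of a permutation of `Fin n` -/
def inv {n : ℕ} (σ : Equiv.Perm (Fin n)) : ℕ :=
  ((Finset.univ : Finset (Fin n × Fin n)).filter (fun p => p.1 < p.2 ∧ σ p.2 < σ p.1)).card

/-- The block of `σ` of length `k` starting at (zero based) position `i` is order isomorphic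
to `π`. -/
def OccursAt {k n : ℕ} (π : Equiv.Perm (Fin k)) (σ : Equiv.Perm (Fin n)) (i : ℕ) : Prop :=
  ∃ h : i + k ≤ n, ∀ a b : Fin k, π a < π b ↔ σ ⟨i + a, by omega⟩ < σ ⟨i + b, by omega⟩

open Classical in
/-- the number of occurrences of the consecutive pattern `π` in `σ` -/
noncomputable def occ {k n : ℕ} (π : Equiv.Perm (Fin k)) (σ : Equiv.Perm (Fin n)) : ℕ :=
  ((Finset.range (n + 1)).filter (fun i => OccursAt π σ i)).card

open Classical in
/-- the expected number of occurrences of `π` in a uniformly random permutation of `Fin n` with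
exactly `m` inversions -/
noncomputable def E {k : ℕ} (n m : ℕ) (π : Equiv.Perm (Fin k)) : ℚ :=
  (∑ σ ∈ (Finset.univ : Finset (Equiv.Perm (Fin n))).filter (fun σ => inv σ = m), (occ π σ : ℚ)) /
    ((Finset.univ : Finset (Equiv.Perm (Fin n))).filter (fun σ => inv σ = m)).card

/-- `a 0, …, a N` is unimodal -/
def Unimodal (N : ℕ) (a : ℕ → ℚ) : Prop :=
  ∃ j, j ≤ N ∧ (∀ i, i < j → a i ≤ a (i + 1)) ∧ (∀ i, j ≤ i → i < N → a (i + 1) ≤ a i)

open Pool.Agent.Q285.PermEnum

/-- the pattern 23451 (zero based 12340) -/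
def pat : Equiv.Perm (Fin 5) where
  toFun := ![1, 2, 3, 4, 0]
  invFun := ![4, 0, 1, 2, 3]
  left_inv := by decide
  right_inv := by decide

/-- occurrences of 23451 on lists -/
def chk : List ℕ → ℕ
  | [] => 0
  | a :: l => (match l with
    | b :: c :: d :: e :: _ => if a < b ∧ b < c ∧ c < d ∧ e < a then 1 else 0
    | _ => 0) + chk l

lemma occursAt_iff (σ : Equiv.Perm (Fin 7)) (i : ℕ) : OccursAt pat σ i ↔
    ∃ h : i + 5 ≤ 7, σ ⟨i, by omega⟩ < σ ⟨i + 1, by omega⟩ ∧
      σ ⟨i + 1, by omega⟩ < σ ⟨i + 2, by omega⟩ ∧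
      σ ⟨i + 2, by omega⟩ < σ ⟨i + 3, by omega⟩ ∧ σ ⟨i + 4, by omega⟩ < σ ⟨i, by omega⟩ := by
  unfold OccursAt
  constructor
  · rintro ⟨h, H⟩
    refine ⟨h, ?_, ?_, ?_, ?_⟩
    · exact (H 0 1).1 (by decide)
    · exact (H 1 2).1 (by decide)
    · exact (H 2 3).1 (by decide)
    · exact (H 4 0).1 (by decide)
  · rintro ⟨h, h1, h2, h3, h4⟩
    refine ⟨h, ?_⟩
    intro a b
    have h12 := h1.trans h2
    have h13 := h12.trans h3
    have h23 := h2.trans h3
    have h41 := h4.trans h1
    have h42 := h4.trans h12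
    have h43 := h4.trans h13
    fin_cases a <;> fin_cases b <;>
      simp [pat, h1, h2, h3, h4, h12, h13, h23, h41, h42, h43, h1.le, h2.le, h3.le, h4.le, h12.le,
        h13.le, h23.le, h41.le, h42.le, h43.le]

lemma occ_eq (σ : Equiv.Perm (Fin 7)) : occ pat σ = chk (word σ) := by
  classical
  unfold occ
  rw [Finset.card_filter]
  simp only [Finset.sum_range_succ, Finset.sum_range_zero, occursAt_iff]
  have e : word σ = [(σ 0 : ℕ), (σ 1 : ℕ), (σ 2 : ℕ), (σ 3 : ℕ), (σ 4 : ℕ), (σ 5 : ℕ), (σ 6 : ℕ)] := by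
    simp [word, List.ofFn_succ]
  rw [e]
  simp only [chk, Fin.lt_def]
  norm_num
  rw [add_assoc]
  rfl

lemma sum_filter (m : ℕ) (F : List ℕ → ℕ) :
    ∑ σ ∈ (Finset.univ : Finset (Equiv.Perm (Fin 7))).filter (fun σ => inv σ = m), F (word σ) =
      ((List.range 7).permutations'.map (fun l => if invL l = m then F l else 0)).sum := by
  rw [← sum_word 7, Finset.sum_filter]
  refine Finset.sum_congr rfl fun σ _ => ?_
  have : invL (word σ) = inv σ := by
    rw [word, invL_ofFn]; rfl
  rw [this]

set_option maxRecDepth 100000 in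
lemma cards : ((List.range 7).permutations'.map (fun l => if invL l = 5 then 1 else 0)).sum = 169 ∧
    ((List.range 7).permutations'.map (fun l => if invL l = 8 then 1 else 0)).sum = 455 ∧
    ((List.range 7).permutations'.map (fun l => if invL l = 9 then 1 else 0)).sum = 531 := by
  decide +kernel

set_option maxRecDepth 100000 in
lemma sums : ((List.range 7).permutations'.map (fun l => if invL l = 5 then chk l else 0)).sum = 6 ∧
    ((List.range 7).permutations'.map (fun l => if invL l = 8 then chk l else 0)).sum = 15 ∧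
    ((List.range 7).permutations'.map (fun l => if invL l = 9 then chk l else 0)).sum = 18 := by
  decide +kernel

/-- total number of occurrences -/
def tot (m : ℕ) : ℕ := ((List.range 7).permutations'.map (fun l => if invL l = m then chk l else 0)).sum

/-- number of permutations -/
def cnt (m : ℕ) : ℕ := ((List.range 7).permutations'.map (fun l => if invL l = m then 1 else 0)).sum

lemma E_eq (m : ℕ) : E 7 m pat = (tot m : ℚ) / (cnt m : ℚ) := by
  have h1 : _ = tot m := sum_filter m chk
  have h2 : _ = cnt m := sum_filter m (fun _ => 1)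
  rw [Finset.sum_const, smul_eq_mul, mul_one] at h2
  unfold E
  rw [← h1, ← h2, Nat.cast_sum]
  refine congrArg₂ _ (Finset.sum_congr rfl fun σ _ => ?_) rfl
  rw [occ_eq]

/-- It is not true that for every consecutive pattern `π` of length `k` and every `n ≥ k + 2` the
sequence of expected numbers of occurrences, indexed by the number of inversions, is unimodal. -/
theorem result : ¬ ∀ (k : ℕ) (π : Equiv.Perm (Fin k)) (n : ℕ), k + 2 ≤ n →
    Unimodal (n.choose 2) (fun m => E n m π) := by
  intro H
  obtain ⟨j, -, h1, h2⟩ := H 5 pat 7 le_rfl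
  have e5 : E 7 5 pat = 6 / 169 := by rw [E_eq, show tot 5 = 6 from sums.1, show cnt 5 = 169 from cards.1]; norm_num
  have e8 : E 7 8 pat = 15 / 455 := by rw [E_eq, show tot 8 = 15 from sums.2.1, show cnt 8 = 455 from cards.2.1]; norm_num
  have e9 : E 7 9 pat = 18 / 531 := by rw [E_eq, show tot 9 = 18 from sums.2.2, show cnt 9 = 531 from cards.2.2]; norm_num
  have hc : Nat.choose 7 2 = 21 := rfl
  rw [hc] at h2
  rcases Nat.lt_or_ge 8 j with hj | hj
  · have a5 := h1 5 (by omega)
    have a6 := h1 6 (by omega)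
    have a7 := h1 7 (by omega)
    simp only at a5 a6 a7
    have := (a5.trans a6).trans a7
    norm_num at this
    rw [e5, e8] at this
    norm_num at this
  · have := h2 8 hj (by norm_num)
    norm_num at this
    rw [e8, e9] at this
    norm_num at this

end Pool.Agent.Results.MP_094caa_co.NotUnimodal
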